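import Mathlib
import Pool.Agent.H14.Menger

set_option autoImplicit false

namespace Pool.Agent.Results.MP_1b3842_gt.CH

open Filter Pool.Agent.H14.Menger in
theorem result : Cardinal.continuum.{0} = Cardinal.aleph 1 →
    ∃ X : Set (ℕ → ℕ), (∀ x ∈ X, StrictMono x) ∧
      bb ≤ Cardinal.mk X ∧
      (∀ b : ℕ → ℕ, StrictMono b → ∃ c : ℕ → ℕ, StrictMono c ∧ (∃ᶠ n in atTop, b n ≤ c n) ∧
        Cardinal.mk {x : ℕ → ℕ | x ∈ X ∧ ¬ ∀ᶠ n in atTop, c n ≤ x n} < bb) ∧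
      ∀ U : ℕ → Set (Set X), (∀ n, ∀ u ∈ U n, IsOpen u) → (∀ n, ⋃₀ U n = Set.univ) →
        ∃ F : ℕ → Set (Set X), (∀ n, (F n).Finite ∧ F n ⊆ U n) ∧
          ∀ y : X, ∃ᶠ n in atTop, y ∈ ⋃₀ F n :=
  main

end Pool.Agent.Results.MP_1b3842_gt.CH
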